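import Pool.Agent.V8H2.QW.Num

/-!
# Products of two primes among the first values of `a m² + b m + c`, for all but few constant terms `c`

For the constant terms `|c| ≤ Y` and the arguments `m ≤ M` the number of the values `a m² + b m + c` which have at
most two prime factors, all of them at least `Y^(1/8)`, has the expected order of magnitude for all but
`Y^(2/3+ε) + Y^(12/11+ε) / M` of the `c`. So the arguments may be as small as `M = Y^ξ`, for every `ξ > 1/11`,
and for `M = √Y` the number of the exceptions is `O(Y^(2/3+ε))`. For products of at most three primes the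
exceptions are `Y^(2/3+ε) + Y^(1+ε) / M` in number, and every `ξ > 0` is allowed. The bounds are uniform in `a ≤ K` and
in all `b` with `a M² + |b| M ≤ K Y`.

Proof. The mean square over the `c` of the error of a sieve of level `D` is bounded by the large sieve (in its dual
form, for the `M` values), which allows `D² = Y^(1-ε) M`. The lower bound comes from the linear sieve with the
logarithmic weights of Richert; the sieve densities are regular for all but `Y^(2/3+ε)` of the `c`, by a moment of
the sums over primes. The squares of the primes up to `M` are counted for every `c`, those of the larger primes in the mean.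
-/

set_option autoImplicit false

open Finset

namespace Pool.Agent.Results.MP_a1177c_nt.AlmostPrimesFewExceptions

/-- the number of the residues `n` modulo `p` with `a n² + b n + c ≡ 0` -/
def rootCount (a b c : ℤ) (p : ℕ) : ℕ := #((range p).filter (fun n : ℕ => (p : ℤ) ∣ a * (n : ℤ) ^ 2 + b * n + c))

/-- the product `∏_{p ≤ M} (1 - ρ(p) / p)` over the primes, `ρ(p)` being the number of the roots modulo `p` -/
noncomputable def localProduct (a b c : ℤ) (M : ℕ) : ℝ :=
  ∏ p ∈ (Icc 1 M).filter Nat.Prime, (1 - (rootCount a b c p : ℝ) / p)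

open Classical in
/-- the number of the integers `1 ≤ m ≤ M` such that `|a m² + b m + c| ≥ 2` has at most `r` prime factors (counted
with multiplicity), all of them at least `w` -/
noncomputable def almostPrimeValues (a b c : ℤ) (r : ℕ) (w : ℝ) (M : ℕ) : ℕ :=
  #((Icc 1 M).filter (fun m : ℕ => 2 ≤ (a * (m : ℤ) ^ 2 + b * m + c).natAbs ∧
    (a * (m : ℤ) ^ 2 + b * m + c).natAbs.primeFactorsList.length ≤ r ∧
    ∀ p : ℕ, p.Prime → p ∣ (a * (m : ℤ) ^ 2 + b * m + c).natAbs → w ≤ p))

open Classical in
/-- **Almost primes among the first values, few exceptions.** Let `K` be a natural number, `β > 0` and `ε > 0`, and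
let `r = 2`, `θ = 12/11` or `r = 3`, `θ = 1`. There are `δ > 0` and `Y₀` such that for all `Y ≥ Y₀`, all integers
`1 ≤ a ≤ K` and `b` and all natural numbers `M ≥ Y^β` with `a M² + |b| M ≤ K Y`: for all but at most
`Y^(2/3 + ε) + Y^(θ + ε) / M` of the integers `|c| ≤ Y` there are at least `δ M ∏_{p ≤ M} (1 - ρ(p) / p)` integers
`1 ≤ m ≤ M` such that `|a m² + b m + c| ≥ 2` has at most `r` prime factors, all of them at least `Y^(1/8)`. -/
theorem result (K : ℕ) (β ε : ℝ) (hβ : 0 < β) (hε : 0 < ε) (r : ℕ) (θ : ℝ)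
    (hr : (r = 2 ∧ θ = 12 / 11) ∨ (r = 3 ∧ θ = 1)) :
    ∃ δ : ℝ, 0 < δ ∧ ∃ Y₀ : ℕ, ∀ Y : ℕ, Y₀ ≤ Y → ∀ (a b : ℤ) (M : ℕ), 1 ≤ a → a ≤ K →
      (Y : ℝ) ^ β ≤ M → (a : ℝ) * M ^ 2 + |(b : ℝ)| * M ≤ K * Y →
      (#((Icc (-(Y : ℤ)) (Y : ℤ)).filter (fun c : ℤ =>
        (almostPrimeValues a b c r ((Y : ℝ) ^ (1 / 8 : ℝ)) M : ℝ) < δ * (M * localProduct a b c M))) : ℝ) ≤
        (Y : ℝ) ^ (2 / 3 + ε) + (Y : ℝ) ^ (θ + ε) / M := by
  obtain ⟨δ, hδ, Y₀, h⟩ := Pool.Agent.V8H2.QW.fin K β ε hβ hε r θ hr
  refine ⟨δ, hδ, Y₀, fun Y hY a b M ha haK hM hv => ?_⟩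
  have haR : (0 : ℝ) < a := by exact_mod_cast ha
  refine le_trans (le_of_eq ?_) (h Y hY a b M (by omega) (by rw [abs_of_pos (by omega)]; exact haK) hM
    (by rw [abs_of_pos haR]; exact hv))
  congr 2
  apply filter_congr
  intro c _
  have e1 : localProduct a b c M = Pool.Agent.Y882.PX.loc (Pool.Agent.V8H2.QW.FQ a b) c M := by
    unfold localProduct Pool.Agent.Y882.PX.loc
    apply prod_congr rfl
    intro p _
    rw [Pool.Agent.Y882.PX.ro_eq]
    unfold rootCount
    simp only [Pool.Agent.V8H2.QW.FQ_eval]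
  have e2 : almostPrimeValues a b c r ((Y : ℝ) ^ (1 / 8 : ℝ)) M =
      Pool.Agent.V8H2.QW.apc a b c r ((Y : ℝ) ^ (1 / 8 : ℝ)) M := by
    unfold almostPrimeValues Pool.Agent.V8H2.QW.apc
    rfl
  rw [e1, e2, mul_assoc]

end Pool.Agent.Results.MP_a1177c_nt.AlmostPrimesFewExceptions
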