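import Pool.Agent.V8H2.QZ.Main

/-!
# Clusters of `m` primes among the first values of `a x² + b x - n` behind the positive zero

The coefficients `a > 0` and `b` are fixed and the constant term `-n` varies. For almost all `n ≤ X` and almost all
of the starting points `J ≤ (log X)^C` of any given set there is, at a distance of at most `(log X)^B` behind
`z + J`, where `z` is the positive zero, an integer `u` such that at least `m` of the values at `u + h`, `h ∈ S`,
are primes. Here `S` is any set of at least `k(m)` shifts, which is fixed in advance. The method is the sieve of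
Maynard and Tao, in the mean over the constant terms.
-/

set_option autoImplicit false

open Finset

namespace Pool.Agent.Results.MP_a1177c_nt.BoundedClustersNearZeros

/-- the positive zero of `a x² + b x + c`, for `a > 0 > c` -/
noncomputable def positiveZero (a b c : ℤ) : ℝ := (-(b : ℝ) + √((b : ℝ) ^ 2 - 4 * a * c)) / (2 * a)

/-- the number of the `h ∈ S` for which `a x² + b x + c` is a (positive) prime at `x = u + h` -/
def primeShifts (a b c : ℤ) (S : Finset ℕ) (u : ℕ) : ℕ :=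
  #(S.filter (fun h : ℕ => (a * ((u + h : ℕ) : ℤ) ^ 2 + b * ((u + h : ℕ) : ℤ) + c).toNat.Prime))

lemma no_fixed (a b c : ℤ) (h1 : ∀ d : ℤ, d ∣ a → d ∣ b → d ∣ c → IsUnit d)
    (h2 : ¬ ((2 : ℤ) ∣ a + b ∧ (2 : ℤ) ∣ c)) (p : ℕ) (hp : p.Prime) :
    ∃ t : ℤ, ¬ (p : ℤ) ∣ a * t ^ 2 + b * t + c := by
  by_contra hcon
  push Not at hcon
  have e0 : (p : ℤ) ∣ c := by simpa using hcon 0
  have e1 : (p : ℤ) ∣ a + b := by
    have := dvd_sub (hcon 1) e0
    have e : a * 1 ^ 2 + b * 1 + c - c = a + b := by ring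
    rwa [e] at this
  have e2 : (p : ℤ) ∣ a - b := by
    have := dvd_sub (hcon (-1)) e0
    have e : a * (-1) ^ 2 + b * (-1) + c - c = a - b := by ring
    rwa [e] at this
  have hpp : Prime (p : ℤ) := Nat.prime_iff_prime_int.1 hp
  by_cases hp2 : p = 2
  · subst hp2
    exact h2 ⟨by exact_mod_cast e1, by exact_mod_cast e0⟩
  · have h3 : ¬ (p : ℤ) ∣ 2 := by
      intro h
      have h4 : p ∣ 2 := by exact_mod_cast h
      exact hp2 ((Nat.prime_dvd_prime_iff_eq hp Nat.prime_two).1 h4)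
    have e3 : (p : ℤ) ∣ 2 * a := by
      have := dvd_add e1 e2
      have e : a + b + (a - b) = 2 * a := by ring
      rwa [e] at this
    have e4 : (p : ℤ) ∣ a := (hpp.dvd_or_dvd e3).resolve_left h3
    have e5 : (p : ℤ) ∣ b := (dvd_add_right e4).1 e1
    exact hpp.not_isUnit (h1 p e4 e5 e0)

/-- **Clusters of primes near the zeros of almost all quadratic polynomials.** For every `m` there are `k` and `B`
with the following property. Let `a > 0` and `b` be integers, `S` a set of at least `k` natural numbers, `C` a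
natural number and `ε > 0`. If `X ≥ X₀`, and if `W` is any finite set of natural numbers `J ≤ (log X)^C`, then for
all but at most `ε X` of the `n ≤ X` the following holds with `c = -n`: if `gcd(a, b, c) = 1` and `a + b`, `c` are
not both even, then for all but at most `ε |W|` of the `J ∈ W` there is an integer `u` with
`z + J ≤ u ≤ z + J + (log X)^B`, where `z` is the positive zero of `a x² + b x + c`, such that
`a (u + h)² + b (u + h) + c` is a prime for at least `m` of the `h ∈ S`. -/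
theorem result (m : ℕ) : ∃ k B : ℕ, ∀ (a b : ℤ), 1 ≤ a → ∀ S : Finset ℕ, k ≤ #S →
    ∀ (C : ℕ) (ε : ℝ), 0 < ε →
    ∃ X₀ : ℕ, ∀ X : ℕ, X₀ ≤ X → ∀ W : Finset ℕ, (∀ J ∈ W, (J : ℝ) ≤ Real.log X ^ C) →
    ∃ Bad ⊆ Icc 1 X, (#Bad : ℝ) ≤ ε * X ∧ ∀ n ∈ Icc 1 X, n ∉ Bad → ∀ c : ℤ, c = -(n : ℤ) →
      (∀ d : ℤ, d ∣ a → d ∣ b → d ∣ c → IsUnit d) → ¬ ((2 : ℤ) ∣ a + b ∧ (2 : ℤ) ∣ c) →
      ∃ G ⊆ W, (1 - ε) * #W ≤ #G ∧ ∀ J ∈ G, ∃ u : ℕ, positiveZero a b c + J ≤ u ∧
        (u : ℝ) ≤ positiveZero a b c + J + Real.log X ^ B ∧ m ≤ primeShifts a b c S u := by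
  obtain ⟨k, B, h⟩ := Pool.Agent.V8H2.QZ.windows m
  refine ⟨k, B, fun a b ha S hS C ε hε => ?_⟩
  obtain ⟨X₀, h⟩ := h a b ha S hS C ε hε
  refine ⟨X₀, fun X hX W hW => ?_⟩
  obtain ⟨Bad, hB1, hB2, h⟩ := h X hX W hW
  refine ⟨Bad, hB1, hB2, ?_⟩
  rintro n hn hnB c rfl h1 h2
  obtain ⟨G, hG1, hG2, h⟩ := h n hn hnB (by
    intro p hp
    obtain ⟨t, ht⟩ := no_fixed a b (-(n : ℤ)) h1 h2 p hp
    refine ⟨t, ?_⟩
    rwa [sub_eq_add_neg])
  refine ⟨G, hG1, hG2, fun J hJ => ?_⟩
  obtain ⟨u, h3, h4, h5⟩ := h J hJ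
  have e : positiveZero a b (-(n : ℤ)) = Pool.Agent.V8H2.QZ.zz a b n := by
    unfold positiveZero Pool.Agent.V8H2.QZ.zz
    push_cast
    rw [mul_neg, sub_neg_eq_add]
  rw [e]
  refine ⟨u, h3, h4, h5.trans (le_of_eq ?_)⟩
  unfold Pool.Agent.V8H2.QZ.pcount primeShifts
  simp only [sub_eq_add_neg]

end Pool.Agent.Results.MP_a1177c_nt.BoundedClustersNearZeros
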