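import Mathlib
import Pool.Agent.V8H21.QB.Sharp
import Pool.Agent.V8H21.QB.Uni4

/-!
# Prime values of quadratic polynomials from the first possible length on, and on arbitrary sets of arguments

The leading coefficient `a` is given, the pair `(b, c)` runs over a box of side `H` (in part 1, 3 and 4 anywhere at
height at most `H (log H)^E`), and the arguments `t` are at most `(log H)^E`, so that the values have the size
`H^(1+o(1))` and a prime value has the probability about `1 / log H`. For fewer than `c log H` arguments there is for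
most pairs no prime value at all (part 4). From `K log H` arguments on:

1. On EVERY set `T` of at least `K log H` arguments `t ≤ (log H)^E` the number of the prime values is, for almost all
   pairs, given by its local densities: it is the number of the `t ∈ T` whose value has no prime factor `≤ z`, divided
   by `V(z) log H`. Here `z` may be any number with `z / log z ≥ K (1 + log (Y / |T|))`, where `T` lies in an interval
   of length `Y`; so `z` is a constant if `T` has a positive relative density.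
2. For the windows of length at least `K log H` this is the formula of Hardy and Littlewood with the full constant
   `C(a, b, c)`, for almost all pairs; and for the initial windows `t ≤ y` one exceptional set of pairs serves for all
   lengths `K log H ≤ y ≤ (log H)^E`.
3. On a set of small relative density `δ = |T| / Y` (and of at least `K log H` elements) a proportion of at least
   `(e^(-γ) - o(1)) / log log (1 / δ)` of all pairs has a prime value; the constant `e^(-γ)` is the best possible.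

Proof. For `t ≠ t'` the two values determine `(b, c)`, and for a given value at `t` the values at `t'` form
progressions modulo `t' - t ≤ (log H)^E`, where the theorem of Siegel and Walfisz and the fundamental lemma apply to
the von Mangoldt function and to its sieve model `Λ_z`. So the second moment over `(b, c)` of the sums of `Λ - Λ_Z`
over `T` is the diagonal `O(H² |T| log H)`, and the one of `Λ_Z - Λ_z` is a sum over the pairs `t ≠ t'` in `T` of
`∏_{p ∣ t - t', p ≤ Z} (1 - 1/p)^(-1) - ∏_{p ∣ t - t', p ≤ z} (1 - 1/p)^(-1)`, which is estimated by a moment of order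
about `z` over all pairs of the interval. The tail of the singular series is treated as in the starting results.
-/

set_option autoImplicit false

namespace Pool.Agent.Results.MP_a1177c_nt.LogarithmicScale

open Finset Filter Topology

/-- the triple `(a, b, c)` is admissible -/
def Admissible (a b c : ℤ) : Prop :=
  0 < a ∧ (∀ d : ℤ, d ∣ a → d ∣ b → d ∣ c → IsUnit d) ∧ ¬ ((2 : ℤ) ∣ a + b ∧ (2 : ℤ) ∣ c) ∧
    ¬ IsSquare (b ^ 2 - 4 * a * c)

/-- `ε = 2` if `a + b` is even and `ε = 1` if `a + b` is odd -/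
noncomputable def eps (a b : ℤ) : ℝ := if (2 : ℤ) ∣ a + b then 2 else 1

/-- the product `∏_{p > 2, p ∣ gcd(a, b)} p / (p - 1)` -/
noncomputable def gcdProd (a b : ℤ) : ℝ :=
  ∏ p ∈ (Int.gcd a b).primeFactors.filter (fun p => 2 < p), (p : ℝ) / (p - 1)

/-- the product `∏_{2 < p ≤ z, p ∤ a} (1 - (D / p) / (p - 1))`, where `D = b² - 4 a c` -/
noncomputable def partialC (a b c : ℤ) (z : ℕ) : ℝ :=
  ∏ p ∈ (Icc 3 z).filter (fun p : ℕ => p.Prime ∧ ¬ (p : ℤ) ∣ a),
    (1 - (jacobiSym (b ^ 2 - 4 * a * c) p : ℝ) / (p - 1))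

/-- the arguments `t ∈ T` for which `a t² + b t + c` is a prime -/
def primes (a b c : ℕ) (T : Finset ℕ) : Finset ℕ := T.filter (fun t => (a * t ^ 2 + b * t + c).Prime)

open Classical in
/-- the arguments `t ∈ T` for which `a t² + b t + c` has no prime factor `p ≤ z` -/
noncomputable def rough (z a b c : ℕ) (T : Finset ℕ) : Finset ℕ :=
  T.filter (fun t => ∀ p : ℕ, p.Prime → p ≤ z → ¬ p ∣ a * t ^ 2 + b * t + c)

/-- `V(z) = ∏_{p ≤ z} (1 - 1 / p)` -/
noncomputable def V (z : ℕ) : ℝ := ∏ p ∈ (Icc 1 z).filter Nat.Prime, (1 - 1 / (p : ℝ))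

/-- the pairs `(b, c)` with `B < b ≤ B + H`, `C < c ≤ C + H` -/
def box (B C H : ℕ) : Finset (ℕ × ℕ) := Ioc B (B + H) ×ˢ Ioc C (C + H)

/-- the pairs of the box for which `a t² + b t + c` is a prime for some `t ∈ T` -/
def hits (a B C H : ℕ) (T : Finset ℕ) : Finset (ℕ × ℕ) :=
  (box B C H).filter (fun q => (primes a q.1 q.2 T).Nonempty)

/-- `a, B, C ≤ H (log H) ^ E` -/
def Height (E H a B C : ℕ) : Prop :=
  (a : ℝ) ≤ H * Real.log H ^ E ∧ (B : ℝ) ≤ H * Real.log H ^ E ∧ (C : ℝ) ≤ H * Real.log H ^ E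

/-- `T` is a set of at least `K log H` numbers in the interval `(u, u + Y]`, and `u + Y ≤ (log H) ^ E` -/
def Arguments (E K H u Y : ℕ) (T : Finset ℕ) : Prop :=
  ((u + Y : ℕ) : ℝ) ≤ Real.log H ^ E ∧ T ⊆ Ioc u (u + Y) ∧ K * Real.log H ≤ T.card

/-- `M = ε C(a, b, c) ∏ p / (p - 1)` is the constant of Hardy and Littlewood, where `C(a, b, c)` converges -/
def IsConstant (a b c : ℕ) (M : ℝ) : Prop :=
  ∃ S : ℝ, 0 < S ∧ Tendsto (fun z => partialC a b c z) atTop (𝓝 S) ∧ M = eps a b * S * gcdProd a b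

/-- **Prime values of quadratic polynomials at the logarithmic scale.** Let `E` and `ε > 0` be given.

(1) There are `K` and `H0` such that for `H ≥ H0`, `a, B, C ≤ H (log H)^E`, every set `T ⊆ (u, u + Y]` with
`u + Y ≤ (log H)^E` and `|T| ≥ K log H`, and every `z` with `K ≤ z ≤ (log H)^E` and
`K (1 + log (Y / |T|)) log z ≤ z`, for all but at most `ε H²` of the pairs `(b, c)` in the box the number of `t ∈ T`
with a prime value and the number of those whose value has no prime factor `≤ z`, divided by `V(z) log H`, differ by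
at most `ε |T| / log H`.

(2) For every `a ≥ 1` there are `θ > 0`, `K` and `H0` such that for `H ≥ H0`: (i) for all `u < v ≤ (log H)^E` with
`v - u ≥ K log H`, for all but at most `ε H²` of the pairs `1 ≤ b, c ≤ H`, if `(a, b, c)` is admissible, the number
of `u < t ≤ v` with `a t² + b t + c` prime is `M (v - u) / log H` with a relative error at most `ε`, where `M` is the
constant of Hardy and Littlewood, `M ≥ θ`; (ii) for `u = 0` one exceptional set of at most `ε H²` pairs serves for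
all `v` with `K log H ≤ v ≤ (log H)^E`.

(3) There are `δ₀`, `K`, `H0` such that for `H`, `a`, `B`, `C`, `T` as in (1) with `|T| ≤ δ₀ Y` at least
`(1 - ε) e^(-γ) / log log (Y / |T|)` times `H²` pairs of the box have a prime value on `T`; and for every
`δ ≤ δ₀` there is `W ≥ 1` such that the set of the multiples of `W` up to `Y` has at least `δ Y` elements for all
large `Y`, but for all large `H`, for all `a, B, C, Y`, at most `(1 + ε) e^(-γ) / log log (1 / δ)` times `H²` pairs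
have a prime value on it.

(4) For `H ≥ H0`, `a, B, C ≤ H (log H)^E` and every set `T` of numbers `1 ≤ t ≤ (log H)^E` at most
`3 |T| / log H` times `H²` pairs have a prime value on `T`. -/
theorem result (E : ℕ) (ε : ℝ) (hε : 0 < ε) :
    (∃ K H0 : ℕ, ∀ H : ℕ, H0 ≤ H → ∀ a B C : ℕ, Height E H a B C → ∀ u Y : ℕ, ∀ T : Finset ℕ,
      Arguments E K H u Y T → ∀ z : ℕ, K ≤ z → (z : ℝ) ≤ Real.log H ^ E →
      K * (1 + Real.log ((Y : ℝ) / T.card)) * Real.log z ≤ z →
      (((box B C H).filter (fun q => ε * (T.card / Real.log H) <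
        |((primes a q.1 q.2 T).card : ℝ) - (rough z a q.1 q.2 T).card / (V z * Real.log H)|)).card : ℝ) ≤
          ε * (H : ℝ) ^ 2) ∧
    (∀ a : ℕ, 0 < a → ∃ θ : ℝ, 0 < θ ∧ ∃ K H0 : ℕ, ∀ H : ℕ, H0 ≤ H →
      (∀ u v : ℕ, (v : ℝ) ≤ Real.log H ^ E → K * Real.log H ≤ (v : ℝ) - u →
        ∃ Ex ⊆ Icc 1 H ×ˢ Icc 1 H, (Ex.card : ℝ) ≤ ε * (H : ℝ) ^ 2 ∧
          ∀ q ∈ Icc 1 H ×ˢ Icc 1 H, q ∉ Ex → Admissible a q.1 q.2 →
          ∃ M : ℝ, IsConstant a q.1 q.2 M ∧ θ ≤ M ∧
            |((primes a q.1 q.2 (Ioc u v)).card : ℝ) - M * (((v : ℝ) - u) / Real.log H)| ≤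
              ε * (M * (((v : ℝ) - u) / Real.log H))) ∧
      (∃ Ex ⊆ Icc 1 H ×ˢ Icc 1 H, (Ex.card : ℝ) ≤ ε * (H : ℝ) ^ 2 ∧
          ∀ q ∈ Icc 1 H ×ˢ Icc 1 H, q ∉ Ex → Admissible a q.1 q.2 →
          ∃ M : ℝ, IsConstant a q.1 q.2 M ∧ θ ≤ M ∧
            ∀ v : ℕ, K * Real.log H ≤ v → (v : ℝ) ≤ Real.log H ^ E →
              |((primes a q.1 q.2 (Ioc 0 v)).card : ℝ) - M * (v / Real.log H)| ≤ ε * (M * (v / Real.log H)))) ∧
    (∃ δ₀ : ℝ, 0 < δ₀ ∧ δ₀ < Real.exp (-1) ∧
      (∃ K H0 : ℕ, ∀ H : ℕ, H0 ≤ H → ∀ a B C : ℕ, Height E H a B C → ∀ u Y : ℕ, ∀ T : Finset ℕ,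
        Arguments E K H u Y T → (T.card : ℝ) ≤ δ₀ * Y →
        (1 - ε) * Real.exp (-Real.eulerMascheroniConstant) / Real.log (Real.log ((Y : ℝ) / T.card)) * (H : ℝ) ^ 2 ≤
          ((hits a B C H T).card : ℝ)) ∧
      ∀ δ : ℝ, 0 < δ → δ ≤ δ₀ → ∃ W H0 Y0 : ℕ, 1 ≤ W ∧
        (∀ Y : ℕ, Y0 ≤ Y → δ * Y ≤ (((Icc 1 Y).filter (fun t => W ∣ t)).card : ℝ)) ∧
        ∀ H : ℕ, H0 ≤ H → ∀ a B C Y : ℕ, ((hits a B C H ((Icc 1 Y).filter (fun t => W ∣ t))).card : ℝ) ≤
          (1 + ε) * Real.exp (-Real.eulerMascheroniConstant) / Real.log (Real.log (1 / δ)) * (H : ℝ) ^ 2) ∧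
    (∃ H0 : ℕ, ∀ H : ℕ, H0 ≤ H → ∀ a B C : ℕ, Height E H a B C → ∀ T : Finset ℕ,
      (∀ t ∈ T, 1 ≤ t ∧ (t : ℝ) ≤ Real.log H ^ E) →
      ((hits a B C H T).card : ℝ) ≤ 3 * (T.card / Real.log H) * (H : ℝ) ^ 2) := by
  refine ⟨?_, ?_, ?_, ?_⟩
  · obtain ⟨K, H0, -, h⟩ := Pool.Agent.V8H21.QB.thmA E hε
    refine ⟨K, H0, fun H hH a B C hh u Y T hT z hz1 hz2 hz3 => ?_⟩
    exact h H hH a B C hh.1 hh.2.1 hh.2.2 u Y hT.1 T hT.2.1 hT.2.2 z hz1 hz2 hz3
  · intro a ha
    obtain ⟨η, hη⟩ : ∃ η, η = min ε 1 := ⟨_, rfl⟩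
    have hη0 : 0 < η := by rw [hη]; exact lt_min hε one_pos
    have hη1 : η ≤ 1 := by rw [hη]; exact min_le_right _ _
    have hηε : η ≤ ε := by rw [hη]; exact min_le_left _ _
    obtain ⟨θ1, hθ1, K1, N1, h1⟩ := Pool.Agent.V8H21.QB.thmB a ha E hη0 hη1
    obtain ⟨θ2, hθ2, K2, N2, h2⟩ := Pool.Agent.V8H21.QB.thmU a ha E hη0 hη1
    refine ⟨min θ1 θ2, lt_min hθ1 hθ2, K1 + K2, N1 + N2 + 1, fun H hH => ⟨fun u v hv huv => ?_, ?_⟩⟩
    · have hL : 0 ≤ Real.log (H : ℝ) := Real.log_natCast_nonneg _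
      obtain ⟨Ex, e1, e2, e3⟩ := h1 H (by omega) u v hv (by
        push_cast at huv
        have : 0 ≤ (K2 : ℝ) * Real.log H := by positivity
        linarith)
      refine ⟨Ex, e1, e2.trans (by gcongr), fun q hq hqE hadm => ?_⟩
      obtain ⟨S, s1, s2, s3, s4⟩ := e3 q hq hqE hadm
      refine ⟨_, ⟨S, s1, s2, rfl⟩, (min_le_left _ _).trans s3, s4.trans ?_⟩
      have hM : 0 ≤ eps a q.1 * S * gcdProd a q.1 := hθ1.le.trans s3
      have huv0 : 0 ≤ (v : ℝ) - u := le_trans (by positivity) huv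
      exact mul_le_mul_of_nonneg_right hηε (mul_nonneg hM (div_nonneg huv0 hL))
    · have hL : 0 ≤ Real.log (H : ℝ) := Real.log_natCast_nonneg _
      obtain ⟨Ex, e1, e2, e3⟩ := h2 H (by omega)
      refine ⟨Ex, e1, e2.trans (by gcongr), fun q hq hqE hadm => ?_⟩
      obtain ⟨S, s1, s2, s3, s4⟩ := e3 q hq hqE hadm
      refine ⟨_, ⟨S, s1, s2, rfl⟩, (min_le_right _ _).trans s3, fun v hv1 hv2 => (s4 v ?_ hv2).trans ?_⟩
      · push_cast at hv1
        have : 0 ≤ (K1 : ℝ) * Real.log H := by positivity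
        linarith
      · have hM : 0 ≤ eps a q.1 * S * gcdProd a q.1 := hθ2.le.trans s3
        exact mul_le_mul_of_nonneg_right hηε (mul_nonneg hM (div_nonneg (Nat.cast_nonneg _) hL))
  · obtain ⟨K, H0, δ1, hδ1, hδ1', h1⟩ := Pool.Agent.V8H21.QB.thmC2 E hε
    obtain ⟨δ2, hδ2, -, h2⟩ := Pool.Agent.V8H21.QB.thmD hε
    have hG : Pool.Agent.V8H21.SQ.Gm = Real.exp Real.eulerMascheroniConstant := rfl
    have hconv : ∀ x l : ℝ, x / (Pool.Agent.V8H21.SQ.Gm * l) = x * Real.exp (-Real.eulerMascheroniConstant) / l := by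
      intro x l
      rw [hG, Real.exp_neg, div_mul_eq_div_div, div_eq_mul_inv x]
    refine ⟨min δ1 δ2, lt_min hδ1 hδ2, lt_of_le_of_lt (min_le_left _ _) hδ1', ⟨K, H0, ?_⟩, ?_⟩
    · intro H hH a B C hh u Y T hT hTδ
      have h3 := h1 H hH a B C hh.1 hh.2.1 hh.2.2 u Y hT.1 T hT.2.1 hT.2.2 (hTδ.trans (by
        apply mul_le_mul_of_nonneg_right (min_le_left _ _) (Nat.cast_nonneg _)))
      rw [hconv] at h3
      exact h3
    · intro δ hδ hδ0
      obtain ⟨W, H0, Y0, w1, w2, w3⟩ := h2 δ hδ (hδ0.trans (min_le_right _ _))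
      refine ⟨W, H0, Y0, w1, w2, fun H hH a B C Y => ?_⟩
      have h3 := w3 H hH a B C Y
      rw [hconv] at h3
      exact h3
  · obtain ⟨H0, h⟩ := Pool.Agent.V8H21.QB.thmE E
    refine ⟨H0, fun H hH a B C hh T hT => ?_⟩
    exact h H hH a B C hh.1 hh.2.1 hh.2.2 T hT

end Pool.Agent.Results.MP_a1177c_nt.LogarithmicScale
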