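import Mathlib
import Pool.Agent.V8H10.AS.Fin

/-!
# Prime values of quadratic polynomials in short segments, for almost all constant terms

The coefficients `a > 0` and `b` are fixed and the constant term `c ≤ X` varies; `y` is any number with
`X^θ ≤ y ≤ √X`, so that the `y` first values of `f(m) = a m² + b m + c` lie in the very short interval of length
about `a y²` behind `c`. (The formula of Hardy and Littlewood is known for almost all `c` if
`y ≥ √X / (log X)^A`.)

1. The formula of Hardy and Littlewood for `θ > 1 / 6`. For almost all `c ≤ X` the number of the `m ≤ y` for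
which `f(m)` is prime is asymptotically equal to the predicted number, with the full constant.

For every `θ > 0`:

2. For almost all `c ≤ X`, at most `18/5 + δ` times the predicted number of the values `f(m)`, `m ≤ y`, are
prime. For `0 ≤ μ ≤ 1`, at least the proportion `(1 - μ) / (18/5 - μ) - δ` of the admissible `c ≤ X` have at
least `μ` times the predicted number of prime values `f(m)`, `m ≤ y`.

3. Transference. For every set `Q` of primes and almost all `c ≤ X` the number of the `m ≤ y` for which `f(m)`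
is a prime in `Q` is, up to `δ y / log X`, the average over `m ≤ y` of the frequency of the elements of `Q` in
the progression `f(m) + W j`, `j ≤ J = ⌊κ y²⌋`, where `W` is any multiple of the numbers up to a constant `R`
and `κ` is small: prime values of quadratic polynomials over short segments have no other obstruction than
the distribution of the primes in short progressions to a bounded modulus.

Proof. 3: Plancherel for the shifts by the values, Weyl differencing of the exponential sum over the values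
(which is large only near rationals `u / (2 a d)`, `d < y`), and for each denominator `r` the large sieve over
windows of all lengths up to `2 a y²`, with the gain of a logarithm for sifted sets (fractions
`u / r + v / k`, `k` sifted); the sum over the denominators converges, and those below a constant divide `W`,
where the subtraction of the local average cancels the windows. 1 follows by the distribution of the primes in
progressions to a fixed modulus in almost all intervals of length `x^(1/3) (log x)^C` (identity of Heath-Brown,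
mean values of products of Dirichlet polynomials with characters, and the bounds of Vinogradov and Korobov for
Dirichlet characters), and the comparison of the products cut at a constant with the infinite products for almost
all `c`. 2 follows by the upper bound for primes in almost all short progressions and the theorem of Siegel and
Walfisz for the first moment.
-/

set_option autoImplicit false

namespace Pool.Agent.Results.MP_a1177c_nt.ShortSegments

open Finset Filter Topology

/-- the triple `(a, b, c)` is admissible -/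
def Admissible (a b c : ℤ) : Prop :=
  0 < a ∧ (∀ d : ℤ, d ∣ a → d ∣ b → d ∣ c → IsUnit d) ∧ ¬ ((2 : ℤ) ∣ a + b ∧ (2 : ℤ) ∣ c) ∧
    ¬ IsSquare (b ^ 2 - 4 * a * c)

open Classical in
/-- the number of the `m`, `1 ≤ m ≤ y`, for which `a m² + b m + c` is a (positive) prime in `Q` -/
noncomputable def count (Q : Set ℕ) (a b c : ℤ) (y : ℕ) : ℕ :=
  #((Icc 1 y).filter (fun m : ℕ => (a * (m : ℤ) ^ 2 + b * m + c).toNat.Prime ∧
    (a * (m : ℤ) ^ 2 + b * m + c).toNat ∈ Q))

open Classical in
/-- the number of the `j`, `1 ≤ j ≤ J`, for which `n + W j` is a prime in `Q` -/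
noncomputable def inProgression (Q : Set ℕ) (n : ℤ) (W J : ℕ) : ℕ :=
  #((Icc 1 J).filter (fun j : ℕ => (n + W * j).toNat.Prime ∧ (n + W * j).toNat ∈ Q))

/-- the sum over `m ≤ y` of the frequency of the primes of `Q` in the progression
`a m² + b m + c + W j`, `j ≤ J` -/
noncomputable def localCount (Q : Set ℕ) (a b c : ℤ) (W J y : ℕ) : ℝ :=
  ∑ m ∈ Icc 1 y, (inProgression Q (a * (m : ℤ) ^ 2 + b * m + c) W J : ℝ) / J

/-- the number of the `m`, `1 ≤ m ≤ y`, for which `a m² + b m + c` is a (positive) prime -/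
def primeCount (a b c : ℤ) (y : ℕ) : ℕ :=
  #((Icc 1 y).filter (fun m : ℕ => (a * (m : ℤ) ^ 2 + b * m + c).toNat.Prime))

/-- `ε = 2` if `a + b` is even and `ε = 1` if `a + b` is odd -/
noncomputable def eps (a b : ℤ) : ℝ := if (2 : ℤ) ∣ a + b then 2 else 1

/-- the product `∏_{p > 2, p ∣ gcd(a, b)} p / (p - 1)` -/
noncomputable def gcdProd (a b : ℤ) : ℝ :=
  ∏ p ∈ (Int.gcd a b).primeFactors.filter (fun p => 2 < p), (p : ℝ) / (p - 1)

/-- the partial product `∏_{2 < p ≤ z, p ∤ a} (1 - (D / p) / (p - 1))` of `C(a, b, c)`, where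
`D = b² - 4 a c` -/
noncomputable def partialC (a b c : ℤ) (z : ℕ) : ℝ :=
  ∏ p ∈ (Icc 3 z).filter (fun p : ℕ => p.Prime ∧ ¬ (p : ℤ) ∣ a),
    (1 - (jacobiSym (b ^ 2 - 4 * a * c) p : ℝ) / (p - 1))

/-- `C` is the value of the product `C(a, b, c)` over the primes in increasing order, and positive -/
def IsConst (a b c : ℤ) (C : ℝ) : Prop := 0 < C ∧ Tendsto (fun z : ℕ => partialC a b c z) atTop (𝓝 C)

open Classical in
/-- **Short segments.** Let `a > 0`, `b` and `δ > 0` be given. (1) For `θ > 1 / 6`, large `X` and all `y` with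
`X^θ ≤ y ≤ √X`: the formula of Hardy and Littlewood for almost all `c ≤ X`. (2) For `θ > 0`, large `X` and all `y`
with `X^θ ≤ y ≤ √X`: the upper bound for almost all `c ≤ X`, and the proportion of the constant terms with at
least `μ` times the predicted number of primes. (3) For `θ > 0`: the transference theorem for all sets of
primes. -/
theorem result (a b : ℤ) (ha : 0 < a) (δ : ℝ) (hδ : 0 < δ) :
    (∀ θ : ℝ, 1 / 6 < θ → ∃ X₀ : ℕ, ∀ X : ℕ, X₀ ≤ X → ∀ y : ℕ, (X : ℝ) ^ θ ≤ y → y ^ 2 ≤ X →
      ∃ Bad ⊆ Icc 1 (X : ℤ), (#Bad : ℝ) ≤ δ * X ∧ ∀ c ∈ Icc 1 (X : ℤ), c ∉ Bad →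
        Admissible a b c → ∃ C : ℝ, IsConst a b c C ∧
          |(primeCount a b c y : ℝ) - (eps a b * C * gcdProd a b) * (y / Real.log X)| ≤
            δ * ((eps a b * C * gcdProd a b) * (y / Real.log X))) ∧
    ∀ θ : ℝ, 0 < θ →
    (∃ X₀ : ℕ, ∀ X : ℕ, X₀ ≤ X → ∀ y : ℕ, (X : ℝ) ^ θ ≤ y → y ^ 2 ≤ X →
      (∃ Bad ⊆ Icc 1 (X : ℤ), (#Bad : ℝ) ≤ δ * X ∧ ∀ c ∈ Icc 1 (X : ℤ), c ∉ Bad →
        Admissible a b c → ∃ C : ℝ, IsConst a b c C ∧
          (primeCount a b c y : ℝ) ≤ (18 / 5 + δ) * (eps a b * C * gcdProd a b) * (y / Real.log X)) ∧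
      ∀ μ : ℝ, 0 ≤ μ → μ ≤ 1 →
        (1 - μ) / (18 / 5 - μ) * (#((Icc 1 (X : ℤ)).filter (fun c => Admissible a b c)) : ℝ) - δ * X ≤
          (#((Icc 1 (X : ℤ)).filter (fun c => Admissible a b c ∧ ∃ C : ℝ, IsConst a b c C ∧
            μ * (eps a b * C * gcdProd a b) * (y / Real.log X) ≤ primeCount a b c y)) : ℝ)) ∧
    ∃ R : ℕ, ∀ W : ℕ, 1 ≤ W → (∀ r : ℕ, 1 ≤ r → r ≤ R → r ∣ W) → ∃ κ₀ : ℝ, 0 < κ₀ ∧
      ∀ κ : ℝ, 0 < κ → κ ≤ κ₀ → ∃ X₀ : ℕ, ∀ X : ℕ, X₀ ≤ X → ∀ y : ℕ, (X : ℝ) ^ θ ≤ y → y ^ 2 ≤ X →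
        ∀ Q : Set ℕ, ∃ Bad ⊆ Icc 1 (X : ℤ), (#Bad : ℝ) ≤ δ * X ∧ ∀ c ∈ Icc 1 (X : ℤ), c ∉ Bad →
          |(count Q a b c y : ℝ) - localCount Q a b c W ⌊κ * (y : ℝ) ^ 2⌋₊ y| ≤ δ * (y / Real.log X) := by
  obtain ⟨n, rfl⟩ := Int.eq_ofNat_of_zero_le ha.le
  have hn : 1 ≤ n := by omega
  refine ⟨fun θ hθ => ?_, fun θ hθ => ⟨?_, ?_⟩⟩
  · exact eventually_atTop.1 (Pool.Agent.V8H10.AS.final4 n hn b θ hθ δ hδ)
  · exact eventually_atTop.1 (Pool.Agent.V8H34.TR.final' n hn b θ hθ δ hδ)
  · obtain ⟨R, h0⟩ := Pool.Agent.V8H34.TR.trans_final n hn b θ hθ δ hδ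
    refine ⟨R, fun W hW hWd => ?_⟩
    obtain ⟨κ₀, hκ₀, h0⟩ := h0 W hW hWd
    exact ⟨κ₀, hκ₀, fun κ hκ hκκ => eventually_atTop.1 (h0 κ hκ hκκ)⟩

end Pool.Agent.Results.MP_a1177c_nt.ShortSegments
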